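import Pool.Agent.H71.HFQ.Blk

/-! Row GLO of board hfq (MP_63b6b1_nt): zeros modulo l in a box and a residue class, lower
bound. -/

set_option autoImplicit false

namespace Pool.Agent.H71.HFQ

open Finset Pool.Agent.H32.RQ Pool.Agent.H34.FQ

lemma glo_aux {n : ℕ} (hn : 3 ≤ n) {κ Rr : ℝ} (hκ : 0 < κ) (hR : 0 < Rr) {X l J : ℝ}
    (hX1 : 1 ≤ X) (hX : (64 / 15 * (16 * Rr / κ) ^ n) ^ 2 ≤ X) (hl0 : 0 < l) (hl : l ≤ 4 * X)
    (hJ : κ * X / (8 * Rr) ≤ J) :
    κ ^ n * X ^ (n - 1) / (8 ^ (n + 2) * Rr ^ n) ≤ J ^ n / l - Real.sqrt l ^ n := by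
  have hX0 : 0 < X := by linarith
  have h1 : (κ * X / (8 * Rr)) ^ n / (4 * X) ≤ J ^ n / l := by
    have h2 : (κ * X / (8 * Rr)) ^ n ≤ J ^ n := pow_le_pow_left₀ (by positivity) hJ n
    have h3 : 0 ≤ J ^ n := le_trans (by positivity) h2
    calc (κ * X / (8 * Rr)) ^ n / (4 * X) ≤ J ^ n / (4 * X) :=
          div_le_div_of_nonneg_right h2 (by positivity)
      _ ≤ J ^ n / l := div_le_div_of_nonneg_left h3 hl0 hl
  have hXn : X ^ n = X ^ (n - 1) * X := by rw [← pow_succ, show n - 1 + 1 = n by omega]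
  set T : ℝ := κ ^ n * X ^ (n - 1) / (8 ^ n * Rr ^ n) with hT
  have hT0 : 0 < T := by positivity
  have h4 : (κ * X / (8 * Rr)) ^ n / (4 * X) = T / 4 := by
    rw [hT, div_pow, mul_pow, mul_pow, hXn]
    field_simp
  have h5 : κ ^ n * X ^ (n - 1) / (8 ^ (n + 2) * Rr ^ n) = T / 64 := by
    rw [hT, pow_add]
    field_simp
    norm_num
  have h6 : Real.sqrt l ^ n ≤ 2 ^ n * Real.sqrt X ^ n := by
    rw [← mul_pow]
    apply pow_le_pow_left₀ (Real.sqrt_nonneg _)
    have h7 : Real.sqrt l ≤ Real.sqrt (4 * X) := Real.sqrt_le_sqrt hl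
    have h8 : Real.sqrt (4 * X) = 2 * Real.sqrt X := by
      rw [Real.sqrt_mul (by norm_num), show (4 : ℝ) = 2 ^ 2 by norm_num, Real.sqrt_sq (by norm_num)]
    rwa [h8] at h7
  have h9 : 64 / 15 * (16 * Rr / κ) ^ n ≤ Real.sqrt X := by
    apply Real.le_sqrt_of_sq_le hX
  have hs1 : 1 ≤ Real.sqrt X := by rw [Real.one_le_sqrt]; exact hX1
  have h10 : X ^ (n - 1) = Real.sqrt X ^ n * Real.sqrt X ^ (n - 2) := by
    rw [← pow_add, show n + (n - 2) = 2 * (n - 1) by omega, pow_mul, Real.sq_sqrt hX0.le]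
  have h11 : Real.sqrt X ≤ Real.sqrt X ^ (n - 2) := by
    calc Real.sqrt X = Real.sqrt X ^ 1 := (pow_one _).symm
      _ ≤ Real.sqrt X ^ (n - 2) := pow_le_pow_right₀ hs1 (by omega)
  have h12 : 2 ^ n * Real.sqrt X ^ n ≤ 15 / 64 * T := by
    have h13 : 15 / 64 * T = Real.sqrt X ^ n * (15 / 64 * (κ ^ n / (8 ^ n * Rr ^ n)) *
        Real.sqrt X ^ (n - 2)) := by
      rw [hT, h10]; ring
    rw [h13, mul_comm]
    apply mul_le_mul_of_nonneg_left _ (by positivity)
    have h14 : (15 / 64 * (κ ^ n / (8 ^ n * Rr ^ n))) * (64 / 15 * (16 * Rr / κ) ^ n) = 2 ^ n := by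
      have h16 : (16 : ℝ) ^ n = 8 ^ n * 2 ^ n := by rw [← mul_pow]; norm_num
      rw [div_pow, mul_pow, h16]
      field_simp
    rw [← h14]
    exact mul_le_mul_of_nonneg_left (h9.trans h11) (by positivity)
  rw [h5]
  rw [h4] at h1
  linarith

theorem pf_GLO (hGSB : T_GSB) (_hFJB : T_FJB) : T_GLO := by
  intro n r R κ hn hdet hR hκ hκ1
  have hRr : (0 : ℝ) < R := by exact_mod_cast hR
  have hRi : (0 : ℤ) < R := by exact_mod_cast hR
  set X₁ : ℕ := ⌈(64 / 15 * (16 * (R : ℝ) / κ) ^ n) ^ 2⌉₊ with hX1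
  set X₂ : ℕ := ⌈64 * (R : ℝ) / κ⌉₊ with hX2
  refine ⟨X₁ + X₂ + R + (gr r).det.natAbs + 1, ?_⟩
  intro X l b a hX hl hXl hl4
  have : NeZero l := ⟨hl.ne_zero⟩
  have hXr1 : (64 / 15 * (16 * (R : ℝ) / κ) ^ n) ^ 2 ≤ (X : ℝ) := by
    refine (Nat.le_ceil _).trans ?_
    have : X₁ ≤ X := by omega
    exact (Nat.cast_le (α := ℝ)).2 this
  have hXr2 : 64 * (R : ℝ) / κ ≤ X := by
    refine (Nat.le_ceil _).trans ?_
    have : X₂ ≤ X := by omega
    exact (Nat.cast_le (α := ℝ)).2 this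
  have hX1' : (1 : ℝ) ≤ X := by
    have : 1 ≤ X := by omega
    exact_mod_cast this
  have hX0 : (0 : ℝ) < X := by linarith
  have hl0 : (0 : ℝ) < l := by exact_mod_cast hl.pos
  have hldet : ¬ (l : ℤ) ∣ (gr r).det := by
    intro h
    have h2 := Int.le_of_dvd (by positivity) ((Int.dvd_natAbs).2 h)
    have h3 : (l : ℤ) ≤ (gr r).det.natAbs := h2
    have h4 : l ≤ (gr r).det.natAbs := by exact_mod_cast h3
    omega
  have hlR : ¬ (l : ℤ) ∣ (R : ℤ) := by
    intro h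
    have h3 := Nat.le_of_dvd hR (by exact_mod_cast h)
    omega
  -- the parameters
  set Λ : ℝ := κ * X / R with hΛ
  have hΛ64 : 64 ≤ Λ := by
    rw [hΛ, le_div_iff₀ hRr]
    rw [div_le_iff₀ hκ] at hXr2
    linarith
  set J : ℕ := ⌊Λ / 4⌋₊ with hJ
  have hJ1 : (J : ℝ) ≤ Λ / 4 := Nat.floor_le (by linarith)
  have hJ2 : Λ / 8 ≤ (J : ℝ) := by
    have := Nat.lt_floor_add_one (Λ / 4)
    linarith
  have hJ0 : 1 ≤ J := by
    have h : (1 : ℝ) ≤ (J : ℝ) := by linarith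
    exact_mod_cast h
  have hΛX : Λ ≤ X := by
    rw [hΛ, div_le_iff₀ hRr]
    have : (1 : ℝ) ≤ R := by exact_mod_cast hR
    nlinarith
  have hJl : 2 * J ≤ l := by
    have h : (2 * J : ℝ) ≤ l := by
      have : (X : ℝ) < l := by exact_mod_cast hXl
      linarith
    exact_mod_cast h
  let e : Fin n → ℤ := fun i => ⌈(b i - a i) / (R : ℝ)⌉ + J
  have hmain := hGSB n l J r (R : ZMod l) (fun i => ((a i + R * e i : ℤ) : ZMod l)) hl hldet hJ0 hJl
    (by
      have h := (ZMod.intCast_zmod_eq_zero_iff_dvd (R : ℤ) l).not.2 hlR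
      simpa using h)
  set Sm : ℝ := ∑ u : Fin n → ZMod l, (∏ i, tri l J (u i)) *
        (if qf (cf (ZMod l) r) (fun i => ((a i + R * e i : ℤ) : ZMod l) + (R : ZMod l) * u i) = 0
          then (1 : ℝ) else 0) with hSm
  have h1 : (J : ℝ) ^ n / l - Real.sqrt l ^ n ≤ Sm := by
    have := (abs_le.1 hmain).1
    linarith
  have h2 : κ ^ n * (X : ℝ) ^ (n - 1) / (8 ^ (n + 2) * (R : ℝ) ^ n) ≤
      (J : ℝ) ^ n / l - Real.sqrt l ^ n := by
    refine glo_aux hn hκ hRr hX1' hXr1 hl0 (by exact_mod_cast hl4) ?_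
    refine le_trans (le_of_eq ?_) hJ2
    rw [hΛ]; field_simp
  refine h2.trans (h1.trans ?_)
  -- the upper bound of the sum
  classical
  let Zs : Finset (Fin n → ZMod l) := univ.filter fun u => (∀ i, |(u i).valMinAbs| < (J : ℤ)) ∧
    qf (cf (ZMod l) r) (fun i => ((a i + R * e i : ℤ) : ZMod l) + (R : ZMod l) * u i) = 0
  have hJr : (0 : ℝ) < J := by exact_mod_cast hJ0
  have h3 : Sm ≤ (Zs.card : ℝ) := by
    have h4 : (Zs.card : ℝ) = ∑ u : Fin n → ZMod l, if (∀ i, |(u i).valMinAbs| < (J : ℤ)) ∧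
        qf (cf (ZMod l) r) (fun i => ((a i + R * e i : ℤ) : ZMod l) + (R : ZMod l) * u i) = 0
        then (1 : ℝ) else 0 := by
      rw [← sum_filter, sum_const, nsmul_eq_mul, mul_one]
    rw [h4, hSm]
    apply sum_le_sum
    intro u _
    by_cases hz : qf (cf (ZMod l) r)
        (fun i => ((a i + R * e i : ℤ) : ZMod l) + (R : ZMod l) * u i) = 0
    · rw [if_pos hz, mul_one]
      by_cases hs : ∀ i, |(u i).valMinAbs| < (J : ℤ)
      · rw [if_pos ⟨hs, hz⟩]
        apply prod_le_one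
        · intro i _; exact le_max_left _ _
        · intro i _
          unfold tri
          apply max_le (by norm_num)
          have : 0 ≤ |(((u i).valMinAbs : ℤ) : ℝ)| / J := by positivity
          linarith
      · rw [if_neg (fun h => hs h.1)]
        push Not at hs
        obtain ⟨i, hi⟩ := hs
        apply le_of_eq
        apply prod_eq_zero (mem_univ i)
        unfold tri
        apply max_eq_left
        have h5 : (J : ℝ) ≤ |(((u i).valMinAbs : ℤ) : ℝ)| := by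
          rw [← Int.cast_abs]; exact_mod_cast hi
        have h6 : 1 ≤ |(((u i).valMinAbs : ℤ) : ℝ)| / J := by
          rw [le_div_iff₀ hJr]; linarith
        linarith
    · rw [if_neg hz, if_neg (fun h => hz h.2), mul_zero]
  refine h3.trans ?_
  set V : Set (Fin n → ℤ) := {v : Fin n → ℤ | (∀ i, b i ≤ v i ∧ (v i : ℝ) ≤ b i + κ * X) ∧
        (∀ i, (R : ℤ) ∣ v i - a i) ∧ (l : ℤ) ∣ qf r v} with hV
  have hVfin : V.Finite := by
    apply Set.Finite.subset (Set.Finite.pi' (fun i => Set.finite_Icc (⌊b i⌋) (⌈b i + κ * X⌉)))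
    intro v hv i
    have hv1 := hv.1 i
    refine ⟨?_, ?_⟩
    · have h7 : (⌊b i⌋ : ℝ) ≤ v i := (Int.floor_le _).trans hv1.1
      exact_mod_cast h7
    · have h7 : (v i : ℝ) ≤ ⌈b i + κ * X⌉ := hv1.2.trans (Int.le_ceil _)
      exact_mod_cast h7
  let ψ : (Fin n → ZMod l) → (Fin n → ℤ) := fun u i => a i + R * (e i + (u i).valMinAbs)
  have hψ : ∀ u ∈ Zs, ψ u ∈ V := by
    intro u hu
    obtain ⟨hu1, hu2⟩ := (mem_filter.1 hu).2
    refine ⟨fun i => ?_, fun i => ?_, ?_⟩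
    · have h8 := abs_lt.1 (hu1 i)
      have h9 : (-(J : ℝ)) < ((u i).valMinAbs : ℤ) := by exact_mod_cast h8.1
      have h10' : ((u i).valMinAbs : ℤ) + 1 ≤ (J : ℤ) := h8.2
      have h10 : (((u i).valMinAbs : ℤ) : ℝ) + 1 ≤ (J : ℝ) := by exact_mod_cast h10'
      have h11 : (b i - a i) / (R : ℝ) ≤ (⌈(b i - a i) / (R : ℝ)⌉ : ℝ) := Int.le_ceil _
      have h12 : (⌈(b i - a i) / (R : ℝ)⌉ : ℝ) < (b i - a i) / (R : ℝ) + 1 := Int.ceil_lt_add_one _
      have h13 : ((ψ u i : ℤ) : ℝ) = a i + R * ((⌈(b i - a i) / (R : ℝ)⌉ : ℝ) + J +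
          (((u i).valMinAbs : ℤ) : ℝ)) := by
        show ((a i + R * ((⌈(b i - a i) / (R : ℝ)⌉ + J) + (u i).valMinAbs) : ℤ) : ℝ) = _
        push_cast; ring
      rw [h13]
      have h14 : (R : ℝ) * ((b i - a i) / R) = b i - a i := by field_simp
      have h15 : (R : ℝ) * Λ = κ * X := by rw [hΛ]; field_simp
      constructor
      · have h16 : (b i - a i) / (R : ℝ) ≤ (⌈(b i - a i) / (R : ℝ)⌉ : ℝ) + J +
          (((u i).valMinAbs : ℤ) : ℝ) := by linarith
        have h17 := mul_le_mul_of_nonneg_left h16 hRr.le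
        linarith
      · have h16 : (⌈(b i - a i) / (R : ℝ)⌉ : ℝ) + J + (((u i).valMinAbs : ℤ) : ℝ) ≤
            (b i - a i) / (R : ℝ) + Λ := by linarith
        have h17 := mul_le_mul_of_nonneg_left h16 hRr.le
        have h18 : (R : ℝ) * ((b i - a i) / (R : ℝ) + Λ) = b i - a i + κ * X := by
          rw [mul_add, h14, h15]
        linarith
    · show (R : ℤ) ∣ a i + R * (e i + (u i).valMinAbs) - a i
      exact ⟨e i + (u i).valMinAbs, by ring⟩
    · rw [← qzero]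
      have h18 : (fun i => ((ψ u i : ℤ) : ZMod l)) =
          fun i => ((a i + R * e i : ℤ) : ZMod l) + (R : ZMod l) * u i := by
        funext i
        show ((a i + R * (e i + (u i).valMinAbs) : ℤ) : ZMod l) = _
        push_cast
        ring
      rw [h18]; exact hu2
  have hinj : Set.InjOn ψ Zs := by
    intro u _ u' _ he
    funext i
    have h20 := congrFun he i
    have h21 : (R : ℤ) * (e i + (u i).valMinAbs) = R * (e i + (u' i).valMinAbs) := by
      have : a i + (R : ℤ) * (e i + (u i).valMinAbs) = a i + R * (e i + (u' i).valMinAbs) := h20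
      linarith
    have h22 := mul_left_cancel₀ hRi.ne' h21
    exact ZMod.injective_valMinAbs (by linarith)
  have h23 : Zs.card ≤ V.ncard := by
    rw [← card_image_of_injOn hinj, ← Set.ncard_coe_finset]
    apply Set.ncard_le_ncard _ hVfin
    intro v hv
    rw [Finset.mem_coe, mem_image] at hv
    obtain ⟨u, hu, rfl⟩ := hv
    exact hψ u hu
  exact_mod_cast h23

end Pool.Agent.H71.HFQ
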