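import Pool.Agent.H34.FQ.Targets

/-! Row GSB of board hfq (MP_63b6b1_nt): zeros of a quadratic form modulo l with triangular
weights. -/

set_option autoImplicit false

namespace Pool.Agent.H71.HFQ

open Finset Pool.Agent.H32.RQ Pool.Agent.H34.FQ

lemma ind_eq (l : ℕ) [NeZero l] (v : ZMod l) :
    (if v = 0 then (1 : ℂ) else 0) = (l : ℂ)⁻¹ * ∑ t : ZMod l, ZMod.stdAddChar (t * v) := by
  rw [AddChar.sum_mulShift v (ZMod.isPrimitive_stdAddChar l), ZMod.card]
  have : (l : ℂ) ≠ 0 := by exact_mod_cast NeZero.ne l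
  split_ifs
  · rw [inv_mul_cancel₀ this]
  · rw [Nat.cast_zero, mul_zero]

lemma sum_prod_univ {n l : ℕ} [NeZero l] (φ : ZMod l → ℂ) :
    ∑ u : Fin n → ZMod l, ∏ i, φ (u i) = (∑ v, φ v) ^ n := by
  have h := prod_univ_sum (fun _ : Fin n => (univ : Finset (ZMod l))) (fun _ v => φ v)
  rw [Fintype.piFinset_univ] at h
  rw [← h, prod_const, card_univ, Fintype.card_fin]

/-- The multiplicative form of the additive character of a sum. -/
lemma std_sum {n l : ℕ} [NeZero l] (h u : Fin n → ZMod l) :
    ∏ i, ZMod.stdAddChar (u i * h i) = ZMod.stdAddChar (N := l) (∑ i, h i * u i) := by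
  have key : ∀ s : Finset (Fin n), ∏ i ∈ s, ZMod.stdAddChar (u i * h i) =
      ZMod.stdAddChar (N := l) (∑ i ∈ s, h i * u i) := by
    intro s
    induction s using Finset.induction_on with
    | empty => simp
    | insert a s ha ih =>
      rw [prod_insert ha, sum_insert ha, AddChar.map_add_eq_mul, ih, mul_comm (u a)]
  exact key univ

theorem pf_GSB (hGSA : T_GSA) (hFJT : T_FJT) : T_GSB := by
  intro n l J _ r g a hl hdet hJ hJl hg
  have : Fact l.Prime := ⟨hl⟩
  obtain ⟨hF1, hF2⟩ := hFJT l J hJ hJl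
  have hl0 : (0 : ℝ) < l := by exact_mod_cast hl.pos
  have hlc : (l : ℂ) ≠ 0 := by exact_mod_cast hl.ne_zero
  have hJ0 : (0 : ℝ) < J := by exact_mod_cast hJ
  have hJc : (J : ℂ) ≠ 0 := by exact_mod_cast (show J ≠ 0 by omega)
  -- Fourier expansion of the triangular function
  have htri : ∀ v : ZMod l, (tri l J v : ℂ) =
      ((J : ℂ) / l) * ∑ h : ZMod l, (fj l J h : ℂ) * ZMod.stdAddChar (v * h) := by
    intro v
    rw [hF1 v]
    push_cast
    field_simp
  have htri0 : tri l J (0 : ZMod l) = 1 := by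
    unfold tri
    simp
  have hfj0 : fj l J (0 : ZMod l) = 1 := by
    unfold fj
    simp only [mul_zero, AddChar.map_zero_eq_one, sum_const, card_range, nsmul_eq_mul, mul_one,
      Complex.norm_natCast]
    rw [div_self (by positivity)]
  have hfjn : ∀ v : ZMod l, 0 ≤ fj l J v := by
    intro v
    unfold fj
    positivity
  have hfjs : ∑ h : ZMod l, fj l J h = (l : ℝ) / J := by
    have h := hF1 0
    rw [htri0, mul_one] at h
    have h2 : ∑ u : ZMod l, (fj l J u : ℂ) * ZMod.stdAddChar ((0 : ZMod l) * u) =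
        ((∑ h : ZMod l, fj l J h : ℝ) : ℂ) := by
      push_cast
      apply sum_congr rfl
      intro u _
      rw [zero_mul, AddChar.map_zero_eq_one, mul_one]
    rw [h2] at h
    exact_mod_cast h
  have htris : ∑ v : ZMod l, (tri l J v : ℂ) = J := by
    have h := hF2 0
    rw [hfj0, mul_one] at h
    have h2 : ∑ j : ZMod l, (tri l J j : ℂ) * ZMod.stdAddChar (j * (0 : ZMod l)) =
        ∑ v : ZMod l, (tri l J v : ℂ) := by
      apply sum_congr rfl
      intro u _
      rw [mul_zero, AddChar.map_zero_eq_one, mul_one]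
    rw [h2] at h
    exact_mod_cast h
  -- the sum for one character
  let At : ZMod l → ℂ := fun t => ∑ u : Fin n → ZMod l, (∏ i, (tri l J (u i) : ℂ)) *
    ZMod.stdAddChar (t * qf (cf (ZMod l) r) (fun i => a i + g * u i))
  have hA0 : At 0 = (J : ℂ) ^ n := by
    show ∑ u : Fin n → ZMod l, (∏ i, (tri l J (u i) : ℂ)) *
      ZMod.stdAddChar (0 * qf (cf (ZMod l) r) (fun i => a i + g * u i)) = (J : ℂ) ^ n
    simp only [zero_mul, AddChar.map_zero_eq_one, mul_one]
    rw [sum_prod_univ (fun v => (tri l J v : ℂ)), htris]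
  have hAt : ∀ t, t ≠ 0 → ‖At t‖ ≤ Real.sqrt l ^ n := by
    intro t ht
    have e1 : At t = ((J : ℂ) / l) ^ n * ∑ h : Fin n → ZMod l, (∏ i, (fj l J (h i) : ℂ)) *
        ∑ u : Fin n → ZMod l, ZMod.stdAddChar (t * qf (cf (ZMod l) r) (fun i => a i + g * u i) +
          ∑ i, h i * u i) := by
      show ∑ u : Fin n → ZMod l, (∏ i, (tri l J (u i) : ℂ)) *
        ZMod.stdAddChar (t * qf (cf (ZMod l) r) (fun i => a i + g * u i)) = _
      have e2 : ∀ u : Fin n → ZMod l, (∏ i, (tri l J (u i) : ℂ)) = ((J : ℂ) / l) ^ n *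
          ∑ h : Fin n → ZMod l, (∏ i, (fj l J (h i) : ℂ)) *
            ZMod.stdAddChar (N := l) (∑ i, h i * u i) := by
        intro u
        rw [prod_congr rfl (fun i _ => htri (u i)), prod_mul_distrib, prod_const, card_univ,
          Fintype.card_fin]
        congr 1
        have h := prod_univ_sum (fun _ : Fin n => (univ : Finset (ZMod l)))
          (fun i v => (fj l J v : ℂ) * ZMod.stdAddChar (u i * v))
        rw [Fintype.piFinset_univ] at h
        rw [h]
        apply sum_congr rfl
        intro h' _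
        rw [prod_mul_distrib, std_sum h' u]
      rw [sum_congr rfl (fun u _ => by rw [e2 u])]
      simp only [mul_assoc]
      rw [← mul_sum]
      congr 1
      simp only [sum_mul]
      rw [sum_comm]
      apply sum_congr rfl
      intro h _
      rw [mul_sum]
      apply sum_congr rfl
      intro u _
      rw [mul_assoc, AddChar.map_add_eq_mul, mul_comm (ZMod.stdAddChar (∑ i, h i * u i))]
    have e3 : ∀ h : Fin n → ZMod l, ‖∑ u : Fin n → ZMod l,
        ZMod.stdAddChar (N := l) (t * qf (cf (ZMod l) r) (fun i => a i + g * u i) +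
          ∑ i, h i * u i)‖ = Real.sqrt l ^ n := by
      intro h
      -- change of variables
      let σ : (Fin n → ZMod l) ≃ (Fin n → ZMod l) :=
        { toFun := fun u i => a i + g * u i
          invFun := fun w i => g⁻¹ * (w i - a i)
          left_inv := by
            intro u; funext i
            show g⁻¹ * (a i + g * u i - a i) = u i
            field_simp
            ring
          right_inv := by
            intro w; funext i
            show a i + g * (g⁻¹ * (w i - a i)) = w i
            rw [← mul_assoc, mul_inv_cancel₀ hg, one_mul, add_sub_cancel] }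
      have e4 : ∑ u : Fin n → ZMod l,
          ZMod.stdAddChar (N := l) (t * qf (cf (ZMod l) r) (fun i => a i + g * u i) +
          ∑ i, h i * u i) = ZMod.stdAddChar (N := l) (-∑ i, g⁻¹ * h i * a i) *
          ∑ w : Fin n → ZMod l, ZMod.stdAddChar (t * qf (cf (ZMod l) r) w +
            ∑ i, (g⁻¹ * h i) * w i) := by
        rw [← Equiv.sum_comp σ (fun w => ZMod.stdAddChar (N := l) (t * qf (cf (ZMod l) r) w +
            ∑ i, (g⁻¹ * h i) * w i)), mul_sum]
        apply sum_congr rfl
        intro u _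
        rw [← AddChar.map_add_eq_mul]
        congr 1
        show t * qf (cf (ZMod l) r) (fun i => a i + g * u i) + ∑ i, h i * u i =
          -∑ i, g⁻¹ * h i * a i + (t * qf (cf (ZMod l) r) (fun i => a i + g * u i) +
            ∑ i, (g⁻¹ * h i) * (a i + g * u i))
        have e5 : ∑ i, (g⁻¹ * h i) * (a i + g * u i) =
            ∑ i, g⁻¹ * h i * a i + ∑ i, h i * u i := by
          rw [← sum_add_distrib]
          apply sum_congr rfl
          intro i _
          have : g⁻¹ * h i * (g * u i) = h i * u i := by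
            rw [mul_comm g⁻¹ (h i), mul_assoc, ← mul_assoc g⁻¹ g, inv_mul_cancel₀ hg, one_mul]
          rw [mul_add, this]
        rw [e5]; ring
      rw [e4, norm_mul, AddChar.norm_apply, one_mul]
      have e6 := hGSA n l r t (fun i => g⁻¹ * h i) hl hdet ht
      have e7 : (Real.sqrt l ^ n) ^ 2 = (l : ℝ) ^ n := by
        rw [← pow_mul, mul_comm n 2, pow_mul, Real.sq_sqrt hl0.le]
      rw [← e7] at e6
      exact (pow_left_inj₀ (norm_nonneg _) (by positivity) two_ne_zero).1 e6
    rw [e1, norm_mul, norm_pow, norm_div, Complex.norm_natCast, Complex.norm_natCast]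
    have e8 : ‖∑ h : Fin n → ZMod l, (∏ i, (fj l J (h i) : ℂ)) *
        ∑ u : Fin n → ZMod l, ZMod.stdAddChar (t * qf (cf (ZMod l) r) (fun i => a i + g * u i) +
          ∑ i, h i * u i)‖ ≤ ((l : ℝ) / J) ^ n * Real.sqrt l ^ n := by
      refine (norm_sum_le _ _).trans ?_
      have e9 : ∀ h : Fin n → ZMod l, ‖(∏ i, (fj l J (h i) : ℂ)) *
          ∑ u : Fin n → ZMod l, ZMod.stdAddChar (t * qf (cf (ZMod l) r) (fun i => a i + g * u i) +
          ∑ i, h i * u i)‖ = (∏ i, fj l J (h i)) * Real.sqrt l ^ n := by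
        intro h
        rw [norm_mul, e3 h, norm_prod]
        congr 1
        apply prod_congr rfl
        intro i _
        rw [Complex.norm_real, Real.norm_eq_abs, abs_of_nonneg (hfjn _)]
      rw [sum_congr rfl (fun h _ => e9 h), ← sum_mul]
      have e10 : ∑ h : Fin n → ZMod l, ∏ i, fj l J (h i) = ((l : ℝ) / J) ^ n := by
        have h := prod_univ_sum (fun _ : Fin n => (univ : Finset (ZMod l)))
          (fun _ v => fj l J v)
        rw [Fintype.piFinset_univ] at h
        rw [← h, prod_const, card_univ, Fintype.card_fin, hfjs]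
      rw [e10]
    calc ((J : ℝ) / l) ^ n * _ ≤ ((J : ℝ) / l) ^ n * (((l : ℝ) / J) ^ n * Real.sqrt l ^ n) :=
          mul_le_mul_of_nonneg_left e8 (by positivity)
      _ = Real.sqrt l ^ n := by
          rw [← mul_assoc, ← mul_pow]
          have : (J : ℝ) / l * (l / J) = 1 := by field_simp
          rw [this, one_pow, one_mul]
  -- the whole sum
  have hS : ((∑ u : Fin n → ZMod l, (∏ i, tri l J (u i)) *
        (if qf (cf (ZMod l) r) (fun i => a i + g * u i) = 0 then (1 : ℝ) else 0) -
      (J : ℝ) ^ n / l : ℝ) : ℂ) = (l : ℂ)⁻¹ * ∑ t ∈ univ.erase (0 : ZMod l), At t := by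
    have e1 : ((∑ u : Fin n → ZMod l, (∏ i, tri l J (u i)) *
        (if qf (cf (ZMod l) r) (fun i => a i + g * u i) = 0 then (1 : ℝ) else 0) : ℝ) : ℂ) =
        (l : ℂ)⁻¹ * ∑ t : ZMod l, At t := by
      rw [Complex.ofReal_sum, mul_sum]
      have e2 : ∀ u : Fin n → ZMod l, (((∏ i, tri l J (u i)) *
          (if qf (cf (ZMod l) r) (fun i => a i + g * u i) = 0 then (1 : ℝ) else 0) : ℝ) : ℂ) =
          ∑ t : ZMod l, (l : ℂ)⁻¹ * ((∏ i, (tri l J (u i) : ℂ)) *
            ZMod.stdAddChar (t * qf (cf (ZMod l) r) (fun i => a i + g * u i))) := by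
        intro u
        have e3 : (((if qf (cf (ZMod l) r) (fun i => a i + g * u i) = 0 then (1 : ℝ)
            else 0 : ℝ)) : ℂ) =
            if qf (cf (ZMod l) r) (fun i => a i + g * u i) = 0 then (1 : ℂ) else 0 := by
          split_ifs <;> simp
        rw [Complex.ofReal_mul, e3, Complex.ofReal_prod, ind_eq, ← mul_sum, ← mul_sum]
        ring
      rw [sum_congr rfl (fun u _ => e2 u), sum_comm]
      apply sum_congr rfl
      intro t _
      rw [← mul_sum]
    rw [Complex.ofReal_sub, e1, ← add_sum_erase univ At (mem_univ (0 : ZMod l)), hA0]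
    push_cast
    ring
  rw [← Real.norm_eq_abs, ← Complex.norm_real, hS, norm_mul, norm_inv, Complex.norm_natCast]
  have hb : ‖∑ t ∈ univ.erase (0 : ZMod l), At t‖ ≤ l * Real.sqrt l ^ n := by
    refine (norm_sum_le _ _).trans ?_
    refine (sum_le_sum fun t ht => hAt t (mem_erase.1 ht).1).trans ?_
    rw [sum_const, nsmul_eq_mul]
    apply mul_le_mul_of_nonneg_right _ (by positivity)
    have : (univ.erase (0 : ZMod l)).card ≤ l := by
      refine (card_le_card (erase_subset _ _)).trans ?_
      rw [card_univ, ZMod.card]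
    exact_mod_cast this
  calc (l : ℝ)⁻¹ * _ ≤ (l : ℝ)⁻¹ * (l * Real.sqrt l ^ n) :=
        mul_le_mul_of_nonneg_left hb (by positivity)
    _ = Real.sqrt l ^ n := by rw [← mul_assoc, inv_mul_cancel₀ hl0.ne', one_mul]

end Pool.Agent.H71.HFQ
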