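import Pool.Agent.H71.HFQ.Blk

/-! Row GUP of board hfq (MP_63b6b1_nt): zeros modulo l in a box and a residue class, upper
bound. -/

set_option autoImplicit false

namespace Pool.Agent.H71.HFQ

open Finset Pool.Agent.H32.RQ Pool.Agent.H34.FQ

lemma UB_le (hGSB : T_GSB) {n : ℕ} (hn : 2 ≤ n) (r : Mon n → ℤ) (l : ℕ) (hl : l.Prime)
    (hdet : ¬ (l : ℤ) ∣ (gr r).det) (a : Fin n → ℤ) (g : ℤ) (hg : ¬ (l : ℤ) ∣ g)
    (c : Fin n → ℤ) (M : ℕ) (hM : 1 ≤ M) :
    ((UB r l a g c M).card : ℝ) ≤ 2 * 12 ^ n * ((M : ℝ) ^ n / l + Real.sqrt l ^ n) := by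
  have hl0 : (0 : ℝ) < l := by exact_mod_cast hl.pos
  have hM0 : (0 : ℝ) < M := by exact_mod_cast hM
  have hsq : 0 ≤ Real.sqrt l ^ n := by positivity
  by_cases hc : 2 * M ≤ l
  · have h1 := block_le hGSB r l hl hdet a g hg c M hM hc
    refine h1.trans ?_
    apply mul_le_mul_of_nonneg_right _ (by positivity)
    have h2 : (2 : ℝ) ^ n ≤ 12 ^ n := pow_le_pow_left₀ (by norm_num) (by norm_num) n
    have h3 : (0 : ℝ) < 12 ^ n := by positivity
    linarith
  · push Not at hc
    have hl2 : 2 ≤ l := hl.two_le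
    set m : ℕ := l / 2 with hm
    have hm1 : 1 ≤ m := by omega
    have hm2 : 2 * m ≤ l := by omega
    have hm3 : l ≤ 3 * m := by omega
    set k : ℕ := M / m + 1 with hk
    have hk1 : M ≤ k * m := by
      rw [hk, add_mul, one_mul]
      have := Nat.div_add_mod M m
      have h2 := Nat.mod_lt M (show 0 < m by omega)
      nlinarith [mul_comm m (M / m)]
    have hmr : (0 : ℝ) < m := by exact_mod_cast hm1
    have hmM : m ≤ M := by omega
    have hk2 : (k : ℝ) ≤ 6 * M / l := by
      have h1 : (k : ℝ) ≤ 2 * (M / m) := by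
        rw [hk]
        push_cast
        have h2 : ((M / m : ℕ) : ℝ) ≤ (M : ℝ) / m := Nat.cast_div_le
        have h3 : (1 : ℝ) ≤ (M : ℝ) / m := by
          rw [le_div_iff₀ hmr, one_mul]; exact_mod_cast hmM
        linarith
      refine h1.trans ?_
      rw [mul_div_assoc', div_le_div_iff₀ hmr hl0]
      have h3 : (l : ℝ) ≤ 3 * m := by exact_mod_cast hm3
      nlinarith
    have h1 : ((UB r l a g c M).card : ℝ) ≤
        (k : ℝ) ^ n * (2 ^ n * ((m : ℝ) ^ n / l + Real.sqrt l ^ n)) := by
      have h2 : (UB r l a g c M).card ≤ ∑ j ∈ Fintype.piFinset fun _ : Fin n => range k,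
          (UB r l a g (fun i => c i + m * j i) m).card :=
        (card_le_card (cover r l a g c M m k hm1 hk1)).trans card_biUnion_le
      have h3 : ((UB r l a g c M).card : ℝ) ≤ ∑ j ∈ Fintype.piFinset fun _ : Fin n => range k,
          ((UB r l a g (fun i => c i + m * j i) m).card : ℝ) := by exact_mod_cast h2
      refine h3.trans ?_
      refine (sum_le_sum fun j _ => block_le hGSB r l hl hdet a g hg
        (fun i => c i + m * j i) m hm1 hm2).trans ?_
      rw [sum_const, Fintype.card_piFinset, prod_const, card_range, card_univ, Fintype.card_fin,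
        nsmul_eq_mul]
      push_cast
      exact le_rfl
    have h4 : Real.sqrt l ^ n ≤ (l : ℝ) ^ (n - 1) := by
      have h5 : 1 ≤ Real.sqrt l := by
        rw [Real.one_le_sqrt]; exact_mod_cast hl.one_lt.le
      calc Real.sqrt l ^ n ≤ Real.sqrt l ^ (2 * (n - 1)) := pow_le_pow_right₀ h5 (by omega)
        _ = (l : ℝ) ^ (n - 1) := by rw [pow_mul, Real.sq_sqrt hl0.le]
    have h6 : (m : ℝ) ^ n / l ≤ (l : ℝ) ^ (n - 1) := by
      rw [div_le_iff₀ hl0, ← pow_succ, show n - 1 + 1 = n by omega]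
      apply pow_le_pow_left₀ hmr.le
      have : m ≤ l := by omega
      exact_mod_cast this
    have h7 : (k : ℝ) ^ n ≤ (6 * M / l) ^ n := pow_le_pow_left₀ (by positivity) hk2 n
    have h8 : (6 * M / l : ℝ) ^ n * (2 ^ n * ((l : ℝ) ^ (n - 1) + (l : ℝ) ^ (n - 1))) =
        2 * 12 ^ n * ((M : ℝ) ^ n / l) := by
      have h9 : (l : ℝ) ^ n = (l : ℝ) ^ (n - 1) * l := by
        rw [← pow_succ, show n - 1 + 1 = n by omega]
      have h10 : (12 : ℝ) ^ n = 6 ^ n * 2 ^ n := by rw [← mul_pow]; norm_num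
      rw [div_pow, mul_pow, h9, h10]
      field_simp
      ring
    calc ((UB r l a g c M).card : ℝ) ≤ _ := h1
      _ ≤ (6 * M / l) ^ n * (2 ^ n * ((l : ℝ) ^ (n - 1) + (l : ℝ) ^ (n - 1))) := by
          apply mul_le_mul h7 _ (by positivity) (by positivity)
          apply mul_le_mul_of_nonneg_left (add_le_add h6 h4) (by positivity)
      _ = 2 * 12 ^ n * ((M : ℝ) ^ n / l) := h8
      _ ≤ _ := by
          apply mul_le_mul_of_nonneg_left _ (by positivity)
          linarith

theorem pf_GUP (hGSB : T_GSB) (_hFJB : T_FJB) : T_GUP := by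
  intro n hn
  refine ⟨2 * 12 ^ n, by positivity, ?_⟩
  intro r l g L a b hl hdet hg hlg
  classical
  have hg0 : (0 : ℤ) < g := by exact_mod_cast hg
  have hgr : (0 : ℝ) < g := by exact_mod_cast hg
  let c : Fin n → ℤ := fun i => -((a i - b i) / g)
  set M : ℕ := L / g + 1 with hM
  have hgl : ¬ (l : ℤ) ∣ (g : ℤ) := by
    intro h; exact hlg (by exact_mod_cast h)
  have hcard : ((Fintype.piFinset fun i => Finset.Icc (b i) (b i + L)).filter fun v =>
      (∀ i, (g : ℤ) ∣ v i - a i) ∧ (l : ℤ) ∣ qf r v).card ≤ (UB r l a g c M).card := by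
    refine card_le_card_of_injOn (fun v i => (v i - a i) / g) ?_ ?_
    · intro v hv
      rw [Finset.mem_coe, mem_filter, Fintype.mem_piFinset] at hv
      obtain ⟨hv1, hv2, hv3⟩ := hv
      have hdiv : ∀ i, (g : ℤ) * ((v i - a i) / g) = v i - a i :=
        fun i => Int.mul_ediv_cancel' (hv2 i)
      rw [Finset.mem_coe]
      unfold UB
      rw [mem_filter, Fintype.mem_piFinset]
      constructor
      · intro i
        have h1 := mem_Icc.1 (hv1 i)
        have h2 := Int.mul_ediv_add_emod (a i - b i) g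
        have h3 := Int.emod_nonneg (a i - b i) hg0.ne'
        have h4 := Int.emod_lt_of_pos (a i - b i) hg0
        rw [mem_Ico]
        show -((a i - b i) / g) ≤ (v i - a i) / g ∧ (v i - a i) / g < -((a i - b i) / g) + M
        have h5 := hdiv i
        have hMi : ((M : ℕ) : ℤ) = (L : ℤ) / g + 1 := by rw [hM]; push_cast; rfl
        constructor
        · by_contra hcon
          push Not at hcon
          have h6 : (v i - a i) / g + 1 ≤ -((a i - b i) / (g : ℤ)) := hcon
          nlinarith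
        · rw [hMi]
          have h7 : (g : ℤ) * ((v i - a i) / g + (a i - b i) / g) ≤ L := by
            rw [mul_add, h5]
            linarith [h1.2]
          have h8 : (v i - a i) / g + (a i - b i) / g ≤ (L : ℤ) / g := by
            rw [Int.le_ediv_iff_mul_le hg0]; linarith
          linarith
      · have h9 : (fun i => a i + (g : ℤ) * ((v i - a i) / g)) = v := by
          funext i; rw [hdiv i]; ring
        show (l : ℤ) ∣ qf r (fun i => a i + (g : ℤ) * ((v i - a i) / g))
        rw [h9]; exact hv3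
    · intro v hv v' hv' he
      rw [Finset.mem_coe, mem_filter] at hv hv'
      funext i
      have h1 := congrFun he i
      have h2 := Int.mul_ediv_cancel' (hv.2.1 i)
      have h3 := Int.mul_ediv_cancel' (hv'.2.1 i)
      have h4 : (v i - a i) / (g : ℤ) = (v' i - a i) / g := h1
      rw [h4] at h2
      linarith
  have h1 := UB_le hGSB hn r l hl hdet a g hgl c M (Nat.le_add_left 1 _)
  have h2 : (((Fintype.piFinset fun i => Finset.Icc (b i) (b i + L)).filter fun v =>
      (∀ i, (g : ℤ) ∣ v i - a i) ∧ (l : ℤ) ∣ qf r v).card : ℝ) ≤ ((UB r l a g c M).card : ℝ) := by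
    exact_mod_cast hcard
  refine h2.trans (h1.trans ?_)
  apply mul_le_mul_of_nonneg_left _ (by positivity)
  have h3 : (M : ℝ) ≤ (L : ℝ) / g + 1 := by
    rw [hM]; push_cast
    have : ((L / g : ℕ) : ℝ) ≤ (L : ℝ) / g := Nat.cast_div_le
    linarith
  have h4 : (M : ℝ) ^ n ≤ ((L : ℝ) / g + 1) ^ n := pow_le_pow_left₀ (by positivity) h3 n
  have hl0 : (0 : ℝ) < l := by exact_mod_cast hl.pos
  have h5 : (M : ℝ) ^ n / l ≤ ((L : ℝ) / g + 1) ^ n / l := div_le_div_of_nonneg_right h4 hl0.le
  linarith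

end Pool.Agent.H71.HFQ
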