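import Pool.Agent.H34.FQ.Targets

/-! Rows GUP and GLO of board hfq (MP_63b6b1_nt): common lemmas. -/

set_option autoImplicit false

namespace Pool.Agent.H71.HFQ

open Finset Pool.Agent.H32.RQ Pool.Agent.H34.FQ

lemma valMinAbs_small {l : ℕ} [NeZero l] {d : ℤ} (h : 2 * |d| < l) :
    ((d : ZMod l)).valMinAbs = d := by
  rw [ZMod.valMinAbs_spec]
  refine ⟨rfl, ?_, ?_⟩
  · have := neg_abs_le d; linarith
  · have := le_abs_self d; linarith

lemma tri_small {l J : ℕ} [NeZero l] {d : ℤ} (h : 2 * |d| < l) :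
    tri l J (d : ZMod l) = max 0 (1 - |(d : ℝ)| / J) := by
  unfold tri
  rw [valMinAbs_small h]

lemma qcast {n : ℕ} (R : Type) [CommRing R] (r : Mon n → ℤ) (v : Fin n → ℤ) :
    qf (cf R r) (fun i => (v i : R)) = ((qf r v : ℤ) : R) := by
  unfold qf cf
  push_cast
  rfl

lemma qzero {n : ℕ} (l : ℕ) (r : Mon n → ℤ) (v : Fin n → ℤ) :
    qf (cf (ZMod l) r) (fun i => (v i : ZMod l)) = 0 ↔ (l : ℤ) ∣ qf r v := by
  rw [qcast, ZMod.intCast_zmod_eq_zero_iff_dvd]

/-- The zeros in a block with `m` integers in every coordinate. -/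
noncomputable def UB {n : ℕ} (r : Mon n → ℤ) (l : ℕ) (a : Fin n → ℤ) (g : ℤ) (c : Fin n → ℤ) (m : ℕ) :
    Finset (Fin n → ℤ) :=
  (Fintype.piFinset fun i => Finset.Ico (c i) (c i + m)).filter fun u =>
    (l : ℤ) ∣ qf r (fun i => a i + g * u i)

lemma block_le (hGSB : T_GSB) {n : ℕ} (r : Mon n → ℤ) (l : ℕ) (hl : l.Prime)
    (hdet : ¬ (l : ℤ) ∣ (gr r).det) (a : Fin n → ℤ) (g : ℤ) (hg : ¬ (l : ℤ) ∣ g)
    (c : Fin n → ℤ) (m : ℕ) (hm : 1 ≤ m) (hml : 2 * m ≤ l) :
    ((UB r l a g c m).card : ℝ) ≤ 2 ^ n * ((m : ℝ) ^ n / l + Real.sqrt l ^ n) := by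
  have : NeZero l := ⟨hl.ne_zero⟩
  set h : ℕ := m / 2 with hh
  have hh1 : 2 * h ≤ m := by omega
  have hh2 : m ≤ 2 * h + 1 := by omega
  let e : Fin n → ℤ := fun i => c i + h
  have hmain := hGSB n l m r (g : ZMod l) (fun i => ((a i + g * e i : ℤ) : ZMod l)) hl hdet hm hml
    (by rwa [Ne, ZMod.intCast_zmod_eq_zero_iff_dvd])
  -- the reduction
  let ρ : (Fin n → ℤ) → (Fin n → ZMod l) := fun u i => ((u i - e i : ℤ) : ZMod l)
  have hd : ∀ u ∈ UB r l a g c m, ∀ i, |u i - e i| ≤ h := by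
    intro u hu i
    unfold UB at hu
    rw [mem_filter, Fintype.mem_piFinset] at hu
    have h1 := hu.1 i
    rw [mem_Ico] at h1
    show |u i - (c i + h)| ≤ h
    rw [abs_le]
    constructor
    · linarith
    · have : (m : ℤ) ≤ 2 * h + 1 := by exact_mod_cast hh2
      linarith
  have hd2 : ∀ u ∈ UB r l a g c m, ∀ i, 2 * |u i - e i| < l := by
    intro u hu i
    have h1 := hd u hu i
    have h2 : (2 * h : ℤ) ≤ m := by exact_mod_cast hh1
    have h3 : (2 * m : ℤ) ≤ l := by exact_mod_cast hml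
    have h4 : (1 : ℤ) ≤ m := by exact_mod_cast hm
    linarith
  have hinj : Set.InjOn ρ (UB r l a g c m) := by
    intro u hu u' hu' he
    funext i
    have h1 := congrFun he i
    have h2 : ((u i - e i : ℤ) : ZMod l).valMinAbs = ((u' i - e i : ℤ) : ZMod l).valMinAbs := by
      show (ρ u i).valMinAbs = (ρ u' i).valMinAbs
      rw [h1]
    rw [valMinAbs_small (hd2 u hu i), valMinAbs_small (hd2 u' hu' i)] at h2
    linarith
  have hzero : ∀ u : Fin n → ℤ, (fun i => ((a i + g * e i : ℤ) : ZMod l) + (g : ZMod l) * ρ u i) =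
      fun i => ((a i + g * u i : ℤ) : ZMod l) := by
    intro u; funext i
    show ((a i + g * e i : ℤ) : ZMod l) + (g : ZMod l) * ((u i - e i : ℤ) : ZMod l) = _
    push_cast
    ring
  have htri : ∀ u ∈ UB r l a g c m, ∀ i, (1 / 2 : ℝ) ≤ tri l m (ρ u i) := by
    intro u hu i
    show (1 / 2 : ℝ) ≤ tri l m ((u i - e i : ℤ) : ZMod l)
    rw [tri_small (hd2 u hu i)]
    refine le_max_of_le_right ?_
    have h1 : |((u i - e i : ℤ) : ℝ)| ≤ h := by
      rw [← Int.cast_abs]; exact_mod_cast hd u hu i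
    have hm0 : (0 : ℝ) < m := by exact_mod_cast hm
    have h2 : |((u i - e i : ℤ) : ℝ)| / m ≤ 1 / 2 := by
      rw [div_le_iff₀ hm0]
      have : (2 * h : ℝ) ≤ m := by exact_mod_cast hh1
      linarith
    linarith
  have hnn : ∀ v : ZMod l, 0 ≤ tri l m v := fun v => le_max_left _ _
  set Sm : ℝ := ∑ u : Fin n → ZMod l, (∏ i, tri l m (u i)) *
        (if qf (cf (ZMod l) r) (fun i => ((a i + g * e i : ℤ) : ZMod l) + (g : ZMod l) * u i) = 0
          then (1 : ℝ) else 0) with hSm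
  have hle : ((UB r l a g c m).card : ℝ) * (1 / 2) ^ n ≤ Sm := by
    have h1 : ∑ u ∈ (UB r l a g c m).image ρ, (∏ i, tri l m (u i)) *
        (if qf (cf (ZMod l) r) (fun i => ((a i + g * e i : ℤ) : ZMod l) + (g : ZMod l) * u i) = 0
          then (1 : ℝ) else 0) ≤ Sm := by
      rw [hSm]
      apply sum_le_sum_of_subset_of_nonneg (subset_univ _)
      intro u _ _
      apply mul_nonneg (prod_nonneg fun i _ => hnn _)
      split_ifs <;> norm_num
    refine le_trans ?_ h1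
    rw [sum_image hinj, ← nsmul_eq_mul, ← sum_const]
    apply sum_le_sum
    intro u hu
    rw [hzero u]
    have h2 : qf (cf (ZMod l) r) (fun i => ((a i + g * u i : ℤ) : ZMod l)) = 0 := by
      rw [qzero]
      unfold UB at hu
      exact (mem_filter.1 hu).2
    rw [if_pos h2, mul_one]
    have h3 : ((1 / 2 : ℝ)) ^ n = ∏ _i : Fin n, (1 / 2 : ℝ) := by
      rw [prod_const, card_univ, Fintype.card_fin]
    rw [h3]
    exact prod_le_prod (fun i _ => by norm_num) (fun i _ => htri u hu i)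
  have h4 : Sm ≤ (m : ℝ) ^ n / l + Real.sqrt l ^ n := by
    have := (abs_le.1 hmain).2
    linarith
  have h5 : ((UB r l a g c m).card : ℝ) = 2 ^ n * (((UB r l a g c m).card : ℝ) * (1 / 2) ^ n) := by
    have : (2 : ℝ) ^ n * (1 / 2) ^ n = 1 := by rw [← mul_pow]; norm_num
    calc ((UB r l a g c m).card : ℝ) = ((UB r l a g c m).card : ℝ) * ((2 : ℝ) ^ n * (1 / 2) ^ n) := by
          rw [this, mul_one]
      _ = _ := by ring
  rw [h5]
  exact mul_le_mul_of_nonneg_left (hle.trans h4) (by positivity)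

/-- Covering by blocks. -/
lemma cover {n : ℕ} (r : Mon n → ℤ) (l : ℕ) (a : Fin n → ℤ) (g : ℤ) (c : Fin n → ℤ) (M m k : ℕ)
    (hm : 1 ≤ m) (hk : M ≤ k * m) :
    UB r l a g c M ⊆ (Fintype.piFinset fun _ : Fin n => range k).biUnion
      (fun j => UB r l a g (fun i => c i + m * j i) m) := by
  intro u hu
  unfold UB at hu
  rw [mem_filter, Fintype.mem_piFinset] at hu
  rw [mem_biUnion]
  have hm0 : (0 : ℤ) < m := by exact_mod_cast hm
  have h0 : ∀ i, 0 ≤ u i - c i := fun i => by have := (mem_Ico.1 (hu.1 i)).1; linarith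
  have h1 : ∀ i, u i - c i < M := fun i => by have := (mem_Ico.1 (hu.1 i)).2; linarith
  have h2 : ∀ i, 0 ≤ (u i - c i) / m := fun i => Int.ediv_nonneg (h0 i) hm0.le
  have h3 : ∀ i, ((((u i - c i) / m).toNat : ℕ) : ℤ) = (u i - c i) / m :=
    fun i => Int.toNat_of_nonneg (h2 i)
  refine ⟨fun i => ((u i - c i) / m).toNat, ?_, ?_⟩
  · rw [Fintype.mem_piFinset]
    intro i
    rw [mem_range]
    have h4 : ((((u i - c i) / m).toNat : ℕ) : ℤ) < k := by
      rw [h3 i]
      apply Int.ediv_lt_of_lt_mul hm0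
      have : (M : ℤ) ≤ k * m := by exact_mod_cast hk
      linarith [h1 i]
    exact_mod_cast h4
  · unfold UB
    rw [mem_filter, Fintype.mem_piFinset]
    refine ⟨fun i => ?_, hu.2⟩
    rw [mem_Ico]
    show c i + m * ((((u i - c i) / m).toNat : ℕ) : ℤ) ≤ u i ∧
      u i < c i + m * ((((u i - c i) / m).toNat : ℕ) : ℤ) + m
    rw [h3 i]
    have h5 := Int.mul_ediv_add_emod (u i - c i) m
    have h6 := Int.emod_nonneg (u i - c i) hm0.ne'
    have h7 := Int.emod_lt_of_pos (u i - c i) hm0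
    constructor <;> linarith

end Pool.Agent.H71.HFQ
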